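import Pool.Agent.MP_36bcbe_gt.Power

set_option autoImplicit false

open TopologicalSpace Pool.Agent.MP_36bcbe_gt

/-- For every cardinal `N` with `2 ≤ N ≤ ℵ₁` there is a pseudocompact Boolean group `G` such that
all closed subgroups of the powers `G ^ A` with `|A| < N` are separable, while every power `G ^ B`
with `N ≤ |B|` has a closed sigma-compact non-separable subgroup. -/
theorem Pool.Agent.Results.MP_36bcbe_gt.ExactPower.result :
    ∀ N : Cardinal.{0}, 2 ≤ N → N ≤ Cardinal.aleph 1 →
      ∃ (G : Type) (_ : TopologicalSpace G) (_ : AddCommGroup G) (_ : IsTopologicalAddGroup G)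
        (_ : T2Space G),
        (∀ x : G, x + x = 0) ∧
        (∀ f : G → ℝ, Continuous f → ∃ C : ℝ, ∀ x, |f x| ≤ C) ∧
        (∀ A : Type, Cardinal.mk A < N → ∀ S : AddSubgroup (A → G),
          IsClosed (S : Set (A → G)) → SeparableSpace S) ∧
        ∀ B : Type, N ≤ Cardinal.mk B → ∃ S : AddSubgroup (B → G),
          IsClosed (S : Set (B → G)) ∧ IsSigmaCompact (S : Set (B → G)) ∧ ¬ SeparableSpace S := by
  classical
  intro N h2 h1
  have hI : Cardinal.mk (Cardinal.aleph 1).out = Cardinal.aleph 1 := Cardinal.mk_out _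
  have hN : Cardinal.mk N.out = N := Cardinal.mk_out _
  obtain ⟨s⟩ : Nonempty (N.out × (Cardinal.aleph 1).out ↪ (Cardinal.aleph 1).out) := by
    rw [← Cardinal.le_def, Cardinal.mk_prod, Cardinal.lift_id, Cardinal.lift_id, hI, hN]
    exact Cardinal.mul_le_of_le Cardinal.aleph0_lt_aleph_one.le h1 le_rfl
  obtain ⟨G, hG, hE, hP, hS⟩ := Pw.exists_group hI (hN.symm ▸ h2) (fun i t => s (i, t))
    fun i i' t t' h => Prod.ext_iff.1 (s.injective h)
  have : Nonempty N.out := Cardinal.mk_ne_zero_iff.1 (hN.symm ▸ (two_pos.trans_le h2).ne')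
  refine ⟨G, inferInstance, inferInstance, inferInstance, inferInstance,
    fun x => Subtype.ext (cube_add_self x.1), hP, fun A hA => hS A (hN.symm ▸ hA), fun B hB => ?_⟩
  obtain ⟨g⟩ := (Cardinal.le_def _ _).1 (hN.le.trans hB)
  exact Pw.bad_power hI (fun i t => s (i, t))
    (fun i t t' h => (Prod.ext_iff.1 (s.injective h)).2) hG hE g g.injective
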