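import Pool.Agent.Mg.F36bcbe.Gf2bbcf

set_option autoImplicit false

open TopologicalSpace Pool.Agent.MP_36bcbe_gt

/-- Statement (B): two pseudocomplete locally convex spaces, all of whose closed vector subspaces
are separable, whose product has a closed sigma-compact non-separable vector subspace. -/
theorem Pool.Agent.Results.MP_36bcbe_gt.LocallyConvex.result :
    ∃ (K L : Type) (_ : AddCommGroup K) (_ : Module ℝ K) (_ : TopologicalSpace K)
      (_ : IsTopologicalAddGroup K) (_ : ContinuousSMul ℝ K) (_ : LocallyConvexSpace ℝ K)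
      (_ : T2Space K) (_ : AddCommGroup L) (_ : Module ℝ L) (_ : TopologicalSpace L)
      (_ : IsTopologicalAddGroup L) (_ : ContinuousSMul ℝ L) (_ : LocallyConvexSpace ℝ L)
      (_ : T2Space L),
      Pseudocomplete K ∧ Pseudocomplete L ∧
      (∀ S : Submodule ℝ K, IsClosed (S : Set K) → SeparableSpace S) ∧
      (∀ S : Submodule ℝ L, IsClosed (S : Set L) → SeparableSpace S) ∧
      ∃ S : Submodule ℝ (K × L), IsClosed (S : Set (K × L)) ∧
        IsSigmaCompact (S : Set (K × L)) ∧ ¬ SeparableSpace S := by
  classical
  have hI : Cardinal.mk (Cardinal.aleph 1).out = Cardinal.aleph 1 := Cardinal.mk_out _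
  obtain ⟨K, L, hK, hL, hKL, hM⟩ := LC.exists_spaces hI
  exact ⟨K, L, inferInstance, inferInstance, inferInstance, inferInstance, inferInstance,
    inferInstance, inferInstance, inferInstance, inferInstance, inferInstance, inferInstance,
    inferInstance, inferInstance, inferInstance, (hM K (Or.inl rfl)).1, (hM L (Or.inr rfl)).1,
    (hM K (Or.inl rfl)).2, (hM L (Or.inr rfl)).2, LC.diag K L, LC.diag_props hI hK hL hKL⟩
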